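import Pool.Agent.Helper74.UB.Goals1

/-!
# Project UB, packet LOSS: the number of boundary darts after adding one vertex
-/

set_option autoImplicit false

namespace Pool.Agent.Helper81.UB

open Finset Equiv Helper28.VF Pool.Agent.Helper74.UB
open scoped Classical

section
variable {D V E F : Type} [Fintype D] [Fintype V] [Fintype E] [Fintype F] (M : PM D V E F)

theorem vt_sig (d : D) : M.vt (M.σ d) = M.vt d :=
  (M.vt_iff _ _).2 (Perm.sameCycle_apply_left.2 (Perm.SameCycle.refl _ _))

theorem vt_sigs (d : D) : M.vt (M.σ.symm d) = M.vt d := by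
  have h := vt_sig M (M.σ.symm d)
  rw [Equiv.apply_symm_apply] at h
  exact h.symm

theorem vt_ph (d : D) : M.vt (ph M d) = tg M d := vt_sig M _

theorem fc_ph (d : D) : M.fc (ph M d) = M.fc d :=
  (M.fc_iff _ _).2 (Perm.sameCycle_apply_left (f := M.σ * M.α).2 (Perm.SameCycle.refl _ _))

theorem ph_inj {d e : D} (h : ph M d = ph M e) : d = e := by
  unfold ph at h
  exact M.α.injective (M.σ.injective h)

theorem ph_al (d : D) : ph M (M.α (M.σ.symm d)) = d := by
  unfold ph
  rw [M.α_inv, Equiv.apply_symm_apply]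

theorem face_ind (d : D) (P : D → Prop) (hd : P d) (hs : ∀ e, P e → P (ph M e)) :
    ∀ e, M.fc e = M.fc d → P e := by
  intro e he
  obtain ⟨i, hi⟩ := ((M.fc_iff d e).1 he.symm).exists_nat_pow_eq
  rw [← hi]
  clear hi he
  induction i with
  | zero => simpa using hd
  | succ i ih =>
    rw [pow_succ', Perm.mul_apply]
    exact hs _ ih

theorem vert_ind (d : D) (P : D → Prop) (hd : P d) (hs : ∀ e, M.vt e = M.vt d → P e → P (M.σ e)) :
    ∀ e, M.vt e = M.vt d → P e := by
  intro e he
  obtain ⟨i, hi⟩ := ((M.vt_iff d e).1 he.symm).exists_nat_pow_eq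
  have key : M.vt ((M.σ ^ i) d) = M.vt d ∧ P ((M.σ ^ i) d) := by
    clear hi he
    induction i with
    | zero => exact ⟨by simp, by simpa using hd⟩
    | succ i ih =>
      rw [pow_succ', Perm.mul_apply]
      exact ⟨by rw [vt_sig]; exact ih.1, hs _ ih.1 ih.2⟩
  rw [← hi]
  exact key.2

theorem face3 {d : D} (h : T3 M d) (e : D) (he : M.fc e = M.fc d) :
    e = d ∨ e = ph M d ∨ e = ph M (ph M d) := by
  refine face_ind M d (fun e => e = d ∨ e = ph M d ∨ e = ph M (ph M d)) (Or.inl rfl) ?_ e he
  rintro x (rfl | rfl | rfl)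
  · exact Or.inr (Or.inl rfl)
  · exact Or.inr (Or.inr rfl)
  · exact Or.inl h

theorem face4 {d : D} (h : T4 M d) (e : D) (he : M.fc e = M.fc d) :
    e = d ∨ e = ph M d ∨ e = ph M (ph M d) ∨ e = ph M (ph M (ph M d)) := by
  refine face_ind M d (fun e => e = d ∨ e = ph M d ∨ e = ph M (ph M d) ∨
    e = ph M (ph M (ph M d))) (Or.inl rfl) ?_ e he
  rintro x (rfl | rfl | rfl | rfl)
  · exact Or.inr (Or.inl rfl)
  · exact Or.inr (Or.inr (Or.inl rfl))
  · exact Or.inr (Or.inr (Or.inr rfl))
  · exact Or.inl h.1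

theorem touch_congr {O : Finset V} {d e : D} (h : M.fc d = M.fc e) :
    Touch M O d ↔ Touch M O e := by
  unfold Touch
  rw [h]

theorem touch_ph (O : Finset V) (d : D) : Touch M O (ph M d) ↔ Touch M O d :=
  touch_congr M (fc_ph M d)

theorem touch3 {O : Finset V} {d : D} (h : T3 M d) :
    Touch M O d ↔ M.vt d ∈ O ∨ tg M d ∈ O ∨ tg M (ph M d) ∈ O := by
  constructor
  · rintro ⟨e, he, heO⟩
    rcases face3 M h e he with rfl | rfl | rfl
    · exact Or.inl heO
    · rw [vt_ph] at heO
      exact Or.inr (Or.inl heO)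
    · rw [vt_ph] at heO
      exact Or.inr (Or.inr heO)
  · rintro (hh | hh | hh)
    · exact ⟨d, rfl, hh⟩
    · exact ⟨ph M d, fc_ph M d, by rwa [vt_ph]⟩
    · exact ⟨ph M (ph M d), by rw [fc_ph, fc_ph], by rwa [vt_ph]⟩

theorem touch4 {O : Finset V} {d : D} (h : T4 M d) :
    Touch M O d ↔ M.vt d ∈ O ∨ tg M d ∈ O ∨ tg M (ph M d) ∈ O ∨ tg M (ph M (ph M d)) ∈ O := by
  constructor
  · rintro ⟨e, he, heO⟩
    rcases face4 M h e he with rfl | rfl | rfl | rfl
    · exact Or.inl heO
    · rw [vt_ph] at heO
      exact Or.inr (Or.inl heO)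
    · rw [vt_ph] at heO
      exact Or.inr (Or.inr (Or.inl heO))
    · rw [vt_ph] at heO
      exact Or.inr (Or.inr (Or.inr heO))
  · rintro (hh | hh | hh | hh)
    · exact ⟨d, rfl, hh⟩
    · exact ⟨ph M d, fc_ph M d, by rwa [vt_ph]⟩
    · exact ⟨ph M (ph M d), by rw [fc_ph, fc_ph], by rwa [vt_ph]⟩
    · exact ⟨ph M (ph M (ph M d)), by rw [fc_ph, fc_ph, fc_ph], by rwa [vt_ph]⟩

/-- the other end of the sector -/
theorem zp3 {g : D} (h : T3 M g) : ph M (ph M g) = M.α (M.σ.symm g) := by
  apply ph_inj M
  rw [ph_al]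
  exact h

theorem zp4 {g : D} (h : T4 M g) : ph M (ph M (ph M g)) = M.α (M.σ.symm g) := by
  apply ph_inj M
  rw [ph_al]
  exact h.1

theorem ztg3 {g : D} (h : T3 M g) : tg M (ph M g) = tg M (M.σ.symm g) := by
  rw [← vt_ph M (ph M g), zp3 M h]
  rfl

theorem ztg4 {g : D} (h : T4 M g) : tg M (ph M (ph M g)) = tg M (M.σ.symm g) := by
  rw [← vt_ph M (ph M (ph M g)), zp4 M h]
  rfl

theorem tg3 {g : D} (h : T3 M g) : tg M (ph M (ph M g)) = M.vt g := by
  rw [← vt_ph, h]

theorem tg4 {g : D} (h : T4 M g) : tg M (ph M (ph M (ph M g))) = M.vt g := by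
  rw [← vt_ph, h.1]

theorem dist3 (hS : Small M) (g : D) :
    g ≠ ph M g ∧ g ≠ ph M (ph M g) ∧ ph M g ≠ ph M (ph M g) := by
  refine ⟨?_, ?_, ?_⟩
  · intro h
    have h2 := congrArg M.vt h
    rw [vt_ph] at h2
    exact hS.noloop g h2.symm
  · intro h
    exact hS.opp g (congrArg M.vt h).symm
  · intro h
    have h2 := congrArg M.vt h
    rw [vt_ph M (ph M g)] at h2
    exact hS.noloop (ph M g) h2.symm

theorem dist4 (hS : Small M) {g : D} (h4 : T4 M g) :
    g ≠ ph M (ph M (ph M g)) ∧ ph M g ≠ ph M (ph M (ph M g)) ∧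
      ph M (ph M g) ≠ ph M (ph M (ph M g)) := by
  refine ⟨?_, ?_, ?_⟩
  · intro h
    exact h4.2 h.symm
  · exact (dist3 M hS (ph M g)).2.1
  · exact (dist3 M hS (ph M g)).2.2

/-- a face contains a vertex at most once -/
theorem once (hS : Small M) {g g' : D} (hv : M.vt g' = M.vt g) (hf : M.fc g' = M.fc g) :
    g' = g := by
  rcases hS.face g with h | h
  · rcases face3 M h g' hf with e | e | e
    · exact e
    · exfalso
      rw [e, vt_ph] at hv
      exact hS.noloop g hv
    · exfalso
      rw [e] at hv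
      exact hS.opp g hv
  · rcases face4 M h g' hf with e | e | e | e
    · exact e
    · exfalso
      rw [e, vt_ph] at hv
      exact hS.noloop g hv
    · exfalso
      rw [e] at hv
      exact hS.opp g hv
    · exfalso
      have h1 := hS.noloop (ph M (ph M (ph M g)))
      rw [tg4 M h, ← e] at h1
      exact h1 hv.symm

theorem sum3 (hS : Small M) {g : D} (h : T3 M g) (f : D → ℤ) :
    ∑ d ∈ univ.filter (fun d => M.fc d = M.fc g), f d = f g + f (ph M g) + f (ph M (ph M g)) := by
  have hd := dist3 M hS g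
  have e : univ.filter (fun d => M.fc d = M.fc g) = {g, ph M g, ph M (ph M g)} := by
    ext d
    simp only [mem_filter, mem_univ, true_and, mem_insert, mem_singleton]
    constructor
    · exact face3 M h d
    · rintro (rfl | rfl | rfl)
      · rfl
      · exact fc_ph M g
      · rw [fc_ph, fc_ph]
  rw [e, sum_insert (by simp [hd.1, hd.2.1]), sum_insert (by simp [hd.2.2]), sum_singleton]
  ring

theorem sum4 (hS : Small M) {g : D} (h : T4 M g) (f : D → ℤ) :
    ∑ d ∈ univ.filter (fun d => M.fc d = M.fc g), f d =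
      f g + f (ph M g) + f (ph M (ph M g)) + f (ph M (ph M (ph M g))) := by
  have hd := dist3 M hS g
  have hd4 := dist4 M hS h
  have e : univ.filter (fun d => M.fc d = M.fc g) =
      {g, ph M g, ph M (ph M g), ph M (ph M (ph M g))} := by
    ext d
    simp only [mem_filter, mem_univ, true_and, mem_insert, mem_singleton]
    constructor
    · exact face4 M h d
    · rintro (rfl | rfl | rfl | rfl)
      · rfl
      · exact fc_ph M g
      · rw [fc_ph, fc_ph]
      · rw [fc_ph, fc_ph, fc_ph]
  rw [e, sum_insert (by simp [hd.1, hd.2.1, hd4.1]), sum_insert (by simp [hd.2.2, hd4.2.1]),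
    sum_insert (by simp [hd4.2.2]), sum_singleton]
  ring

/-- the difference of the indicator functions of the two boundaries -/
noncomputable def df (X : Finset V) (p : V) (d : D) : ℤ :=
  (if Bd M X d then 1 else 0) - (if Bd M (insert p X) d then 1 else 0)

theorem df3 (hS : Small M) {X : Finset V} {p : V} (hp : p ∉ X) {g : D} (hg : M.vt g = p)
    (h : T3 M g) :
    ∑ d ∈ univ.filter (fun d => M.fc d = M.fc g), df M X p d =
      if tg M g ∈ X then (if tg M (M.σ.symm g) ∈ X then 0 else 1)
      else (if tg M (M.σ.symm g) ∈ X then 1 else -1) := by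
  rw [sum3 M hS h]
  have z1 : tg M g ≠ p := by
    rw [← hg]
    exact hS.noloop g
  have z2 : tg M (M.σ.symm g) ≠ p := by
    rw [← hg, ← ztg3 M h, ← vt_ph]
    exact hS.opp g
  unfold df Bd
  simp only [touch_ph, touch3 M h, tg3 M h, ztg3 M h, vt_ph, hg, mem_insert, z1, z2, hp,
    true_or, false_or, true_and, not_true, not_false_iff, and_true, and_false, false_and, if_false]
  by_cases a : tg M g ∈ X <;> by_cases b : tg M (M.σ.symm g) ∈ X <;> simp [a, b]

theorem df4 (hS : Small M) {X : Finset V} {p : V} (hp : p ∉ X) {g : D} (hg : M.vt g = p)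
    (h : T4 M g) :
    ∑ d ∈ univ.filter (fun d => M.fc d = M.fc g), df M X p d =
      if tg M g ∈ X then (if tg M (M.σ.symm g) ∈ X then 0 else 1)
      else (if tg M (M.σ.symm g) ∈ X then 1 else if tg M (ph M g) ∈ X then 2 else -2) := by
  rw [sum4 M hS h]
  have z1 : tg M g ≠ p := by
    rw [← hg]
    exact hS.noloop g
  have z2 : tg M (M.σ.symm g) ≠ p := by
    rw [← ztg4 M h, ← hg, ← tg4 M h, ← vt_ph M (ph M (ph M g))]
    exact (hS.noloop _).symm
  have z3 : tg M (ph M g) ≠ p := by
    rw [← hg, ← vt_ph]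
    exact hS.opp g
  unfold df Bd
  simp only [touch_ph, touch4 M h, tg4 M h, ztg4 M h, vt_ph, hg, mem_insert, z1, z2, z3, hp,
    true_or, false_or, true_and, not_true, not_false_iff, and_true, and_false, false_and, if_false]
  by_cases a : tg M g ∈ X <;> by_cases b : tg M (M.σ.symm g) ∈ X <;>
    by_cases c : tg M (ph M g) ∈ X <;> simp [a, b, c]

/-- the loss at one sector -/
noncomputable def ls (X : Finset V) (p : V) (g : D) : ℤ :=
  (if T3 M g then 1 else 2) + ∑ d ∈ univ.filter (fun d => M.fc d = M.fc g), df M X p d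

theorem ls_nonneg (hS : Small M) {X : Finset V} {p : V} (hp : p ∉ X) {g : D} (hg : M.vt g = p) :
    0 ≤ ls M X p g := by
  unfold ls
  rcases hS.face g with h | h
  · rw [df3 M hS hp hg h, if_pos h]
    split_ifs <;> norm_num
  · rw [df4 M hS hp hg h, if_neg h.2]
    split_ifs <;> norm_num

theorem ls_change (hS : Small M) {X : Finset V} {p : V} (hp : p ∉ X) {g : D} (hg : M.vt g = p)
    (hu : ¬ (tg M g ∈ X ↔ tg M (M.σ.symm g) ∈ X)) :
    2 ≤ ls M X p g ∧ (T4 M g → 3 ≤ ls M X p g) := by
  unfold ls
  rcases hS.face g with h | h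
  · rw [df3 M hS hp hg h, if_pos h]
    refine ⟨?_, fun h4 => absurd h h4.2⟩
    by_cases a : tg M g ∈ X <;> by_cases b : tg M (M.σ.symm g) ∈ X <;> simp [a, b] at hu ⊢
  · rw [df4 M hS hp hg h, if_neg h.2]
    by_cases a : tg M g ∈ X <;> by_cases b : tg M (M.σ.symm g) ∈ X <;> simp [a, b] at hu ⊢

theorem ls_both (hS : Small M) {X : Finset V} {p : V} (hp : p ∉ X) {g : D} (hg : M.vt g = p)
    (a : tg M g ∈ X) (b : tg M (M.σ.symm g) ∈ X) :
    ls M X p g = (if T3 M g then 1 else 2) := by
  unfold ls
  rcases hS.face g with h | h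
  · rw [df3 M hS hp hg h, if_pos a, if_pos b, add_zero]
  · rw [df4 M hS hp hg h, if_pos a, if_pos b, add_zero]

theorem df_far {X : Finset V} {p : V} {d : D} (h : ∀ e, M.fc e = M.fc d → M.vt e ≠ p) :
    df M X p d = 0 := by
  have hT : Touch M (insert p X) d ↔ Touch M X d := by
    unfold Touch
    constructor
    · rintro ⟨e, he, hx⟩
      rcases mem_insert.1 hx with hx | hx
      · exact absurd hx (h e he)
      · exact ⟨e, he, hx⟩
    · rintro ⟨e, he, hx⟩
      exact ⟨e, he, mem_insert_of_mem hx⟩
  have h1 : M.vt d ≠ p := h d rfl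
  have h2 : tg M d ≠ p := by
    rw [← vt_ph]
    exact h _ (fc_ph M d)
  have hB : Bd M (insert p X) d ↔ Bd M X d := by
    unfold Bd
    simp only [hT, mem_insert, h1, h2, false_or]
  unfold df
  by_cases hb : Bd M X d
  · rw [if_pos hb, if_pos (hB.2 hb), sub_self]
  · rw [if_neg hb, if_neg (fun hh => hb (hB.1 hh)), sub_self]

theorem total (hS : Small M) (X : Finset V) (p : V) :
    ∑ g ∈ univ.filter (fun g => M.vt g = p), ls M X p g =
      (link M p : ℤ) + (bd M X).card - (bd M (insert p X)).card := by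
  have h1 : ((bd M X).card : ℤ) - (bd M (insert p X)).card = ∑ d, df M X p d := by
    unfold bd df
    rw [card_filter, card_filter]
    push_cast
    rw [sum_sub_distrib]
  have h2 : ∑ d, df M X p d = ∑ g ∈ univ.filter (fun g => M.vt g = p),
      ∑ d ∈ univ.filter (fun d => M.fc d = M.fc g), df M X p d := by
    rw [← sum_biUnion]
    · symm
      apply sum_subset (subset_univ _)
      intro d _ hd
      apply df_far
      intro e he hv
      apply hd
      rw [mem_biUnion]
      exact ⟨e, by simp [hv], by simp [he]⟩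
    · intro g hg g' hg' hne
      rw [Function.onFun, disjoint_left]
      intro d hd hd'
      simp only [coe_filter, mem_univ, true_and, Set.mem_setOf_eq, mem_filter] at hg hg' hd hd'
      exact hne (once M hS (by rw [hg, hg']) (by rw [← hd, ← hd']))
  have h3 : (link M p : ℤ) = ∑ g ∈ univ.filter (fun g => M.vt g = p), (if T3 M g then 1 else 2) := by
    unfold link
    push_cast
    rfl
  unfold ls
  rw [sum_add_distrib, ← h2, ← h3, ← h1]
  ring

end

theorem loss : StmtLoss := by
  intro D V E F _ _ _ _ M hS X p hp ⟨u, huX, hFA⟩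
  have hT := total M hS X p
  set out : Finset D := univ.filter (fun g => M.vt g = p) with hout
  have hmem : ∀ g, g ∈ out ↔ M.vt g = p := by
    intro g
    rw [hout, mem_filter]
    exact ⟨fun h => h.2, fun h => ⟨mem_univ _, h⟩⟩
  have hnn : ∀ g ∈ out, 0 ≤ ls M X p g := fun g hg => ls_nonneg M hS hp ((hmem g).1 hg)
  by_cases hc : (∃ x ∈ out, tg M x ∈ X) ∧ ∃ y ∈ out, tg M y ∉ X
  · -- there are changes
    obtain ⟨⟨x, hx, hxX⟩, y, hy, hyX⟩ := hc
    have hxv := (hmem x).1 hx
    have hyv := (hmem y).1 hy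
    obtain ⟨g1, hg1, hg1a, hg1b⟩ : ∃ g ∈ out, tg M g ∈ X ∧ tg M (M.σ.symm g) ∉ X := by
      by_contra hcon
      push Not at hcon
      refine vert_ind M y (fun e => tg M e ∉ X) hyX ?_ x (by rw [hxv, hyv]) hxX
      intro e he hP hQ
      have := hcon (M.σ e) ((hmem _).2 (by rw [vt_sig, he, hyv])) hQ
      rw [Equiv.symm_apply_apply] at this
      exact hP this
    obtain ⟨g2, hg2, hg2a, hg2b⟩ : ∃ g ∈ out, tg M g ∉ X ∧ tg M (M.σ.symm g) ∈ X := by
      by_contra hcon
      push Not at hcon
      refine vert_ind M x (fun e => ¬ tg M e ∉ X) (fun hh => hh hxX) ?_ y (by rw [hxv, hyv]) hyX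
      intro e he hP hQ
      have := hcon (M.σ e) ((hmem _).2 (by rw [vt_sig, he, hxv])) hQ
      rw [Equiv.symm_apply_apply] at this
      exact hP this
    have hne : g1 ≠ g2 := by
      rintro rfl
      exact hg2a hg1a
    have c1 := ls_change M hS hp ((hmem g1).1 hg1) (by tauto)
    have c2 := ls_change M hS hp ((hmem g2).1 hg2) (by tauto)
    have two : ∀ a ∈ out, ∀ b ∈ out, a ≠ b →
        ls M X p a + ls M X p b ≤ ∑ g ∈ out, ls M X p g := by
      intro a ha b hb hab
      rw [← sum_pair hab]
      apply sum_le_sum_of_subset_of_nonneg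
      · intro z hz
        rcases mem_insert.1 hz with rfl | hz
        · exact ha
        · rw [mem_singleton.1 hz]
          exact hb
      · intro g hg _
        exact hnn g hg
    refine ⟨Or.inl ?_, ?_⟩
    · have := two g1 hg1 g2 hg2 hne
      have h1 := c1.1
      have h2 := c2.1
      zify
      linarith
    · intro a ha hsq
      left
      -- the sector with the square
      obtain ⟨s, hs, hs4, hsu⟩ : ∃ s ∈ out, T4 M s ∧
          (tg M s ∈ X ∨ tg M (M.σ.symm s) ∈ X) := by
        obtain ⟨d, hd4, ⟨h1, h2⟩ | ⟨h1, h2⟩⟩ := hsq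
        · exact ⟨d, (hmem d).2 h1, hd4, Or.inl (by rw [h2]; exact ha)⟩
        · refine ⟨ph M d, (hmem _).2 (by rw [vt_ph, h2]), ?_, Or.inr ?_⟩
          · refine ⟨congrArg (ph M) hd4.1, ?_⟩
            intro h3
            exact hd4.2 (ph_inj M h3)
          · unfold ph
            rw [Equiv.symm_apply_apply]
            unfold tg
            rw [M.α_inv, h1]
            exact ha
      have hsv := (hmem s).1 hs
      by_cases hch : (tg M s ∈ X ↔ tg M (M.σ.symm s) ∈ X)
      · have hb : tg M s ∈ X ∧ tg M (M.σ.symm s) ∈ X := by tauto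
        have hv := ls_both M hS hp hsv hb.1 hb.2
        rw [if_neg hs4.2] at hv
        have hs1 : s ≠ g1 := by
          rintro rfl
          exact hg1b hb.2
        have hs2 : s ≠ g2 := by
          rintro rfl
          exact hg2a hb.1
        have three : ls M X p s + (ls M X p g1 + ls M X p g2) ≤ ∑ g ∈ out, ls M X p g := by
          rw [← sum_pair hne, ← sum_insert (by simp [hs1, hs2])]
          apply sum_le_sum_of_subset_of_nonneg
          · intro z hz
            simp only [mem_insert, mem_singleton] at hz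
            rcases hz with rfl | rfl | rfl
            · exact hs
            · exact hg1
            · exact hg2
          · intro g hg _
            exact hnn g hg
        have h1 := c1.1
        have h2 := c2.1
        zify
        linarith
      · have hs3 := (ls_change M hS hp hsv hch).2 hs4
        by_cases hsg : s = g1
        · have := two s hs g2 hg2 (by rw [hsg]; exact hne)
          have h2 := c2.1
          zify
          linarith
        · have := two s hs g1 hg1 hsg
          have h1 := c1.1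
          zify
          linarith
  · by_cases hall : ∀ x ∈ out, tg M x ∈ X
    · -- all neighbours are in `X`
      have hnb : ∀ v, Ad M p v → v ∈ X := by
        rintro v ⟨d, h1, h2⟩
        rw [← h2]
        exact hall d ((hmem d).2 h1)
      have hle : (bd M (insert p X)).card ≤ (bd M X).card := by
        have h3 : ∑ g ∈ out, ls M X p g = (link M p : ℤ) := by
          unfold link
          push_cast
          apply sum_congr rfl
          intro g hg
          have hgv := (hmem g).1 hg
          exact ls_both M hS hp hgv (hall g hg)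
            (hall _ ((hmem _).2 (by rw [vt_sigs, hgv])))
        rw [h3] at hT
        zify
        linarith
      exact ⟨Or.inr ⟨hnb, hle⟩, fun a _ _ => Or.inr hle⟩
    · -- no neighbour is in `X`
      have hnone : ∀ x ∈ out, tg M x ∉ X := by
        intro x hx hxX
        push Not at hall
        exact hc ⟨⟨x, hx, hxX⟩, hall⟩
      obtain ⟨d, e, hde, hdu, hep⟩ := hFA
      have he : e ∈ out := (hmem e).2 hep
      have ha := hnone e he
      have hb := hnone (M.σ.symm e) ((hmem _).2 (by rw [vt_sigs, hep]))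
      have h4 : 4 ≤ ls M X p e := by
        have hTo : Touch M X e := ⟨d, hde, by rw [hdu]; exact huX⟩
        rcases hS.face e with h | h
        · exfalso
          rw [touch3 M h, hep, ztg3 M h] at hTo
          rcases hTo with h' | h' | h'
          · exact hp h'
          · exact ha h'
          · exact hb h'
        · rw [touch4 M h, hep, ztg4 M h] at hTo
          have hc' : tg M (ph M e) ∈ X := by tauto
          unfold ls
          rw [df4 M hS hp hep h, if_neg h.2, if_neg ha, if_neg hb, if_pos hc']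
          norm_num
      have hge : ls M X p e ≤ ∑ g ∈ out, ls M X p g := single_le_sum hnn he
      refine ⟨Or.inl ?_, ?_⟩
      · zify
        linarith
      · intro a haX hsq
        exfalso
        obtain ⟨d', _, ⟨h1, h2⟩ | ⟨h1, h2⟩⟩ := hsq
        · exact hnone d' ((hmem _).2 h1) (by rw [h2]; exact haX)
        · refine hnone (M.α d') ((hmem _).2 h2) ?_
          unfold tg
          rw [M.α_inv, h1]
          exact haX

end Pool.Agent.Helper81.UB
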